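import Pool.Agent.Helper39.Uct.Goals3

/-!
# RED, FIN, FINI: one step of the structure theorem and the case of finite groups
-/

open scoped ComplexOrder

namespace Pool.Agent.Helper90.Uct2

open Pool.Agent.Helper39.Uct Pool.Agent.Helper39.Uct.Fib Pool.Agent.Helper90.Uct

/-- RED: one step of the structure theorem. -/
theorem red : S_RED := by
  intro Q _ hQ B _ G hG hB
  have hReg : Reg G → ∃ (H : Type) (_ : NonUnitalCStarAlgebra H) (ι : H →⋆ₙₐ[ℂ] B), Hered ι ∧
      Nontrivial H ∧ ((∃ G' : Fib Q H, G'.Comm ∧ G'.Top) ∨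
        ∃ (M : Subgroup Q) (K : Subgroup M) (_ : K.Normal), K ≠ ⊥ ∧
          ∃ G' : Fib (M ⧸ K) H, G'.Comm) := by
    rintro ⟨e, M, K, hKM, hK, hn, hes, he0, hout, hin, hcomm⟩
    haveI hnorm : (K.subgroupOf M).Normal := by
      refine ⟨fun k hk g => ?_⟩
      rw [Subgroup.mem_subgroupOf] at hk ⊢
      exact hn g.1 g.2 _ hk
    have hK' : K.subgroupOf M ≠ ⊥ := by
      intro h
      apply hK
      rw [eq_bot_iff]
      intro k hk
      have : (⟨k, hKM hk⟩ : M) ∈ K.subgroupOf M := by
        rw [Subgroup.mem_subgroupOf]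
        exact hk
      rw [h, Subgroup.mem_bot] at this
      rw [Subgroup.mem_bot]
      exact congrArg Subtype.val this
    obtain ⟨H, instH, ι, hher, hnt, -, G', hG'⟩ :=
      rg Q B G M (M ⧸ K.subgroupOf M) (QuotientGroup.mk' (K.subgroupOf M)) e hes he0 hout (by
        refine Submodule.topologicalClosure_mono ?_ hin
        refine iSup_le fun k => ?_
        have hk : (⟨(k : Q), hKM k.2⟩ : M) ∈ (QuotientGroup.mk' (K.subgroupOf M)).ker := by
          rw [QuotientGroup.ker_mk', Subgroup.mem_subgroupOf]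
          exact k.2
        exact le_iSup (fun k : (QuotientGroup.mk' (K.subgroupOf M)).ker => G.fib ((k : M) : Q))
          ⟨⟨(k : Q), hKM k.2⟩, hk⟩)
    refine ⟨H, instH, ι, hher, hnt, Or.inr ⟨M, K.subgroupOf M, hnorm, hK', G', ?_⟩⟩
    intro x hx y hy
    rw [hG'] at hx hy
    apply hher.1
    rw [map_mul, map_mul]
    refine span_comm ?_ _ hx _ hy
    rintro _ ⟨q, hq, b, hb, rfl⟩ _ ⟨q', hq', b', hb', rfl⟩
    have h1 : (q : Q) ∈ K := by
      rw [← Subgroup.mem_subgroupOf, ← QuotientGroup.eq_one_iff]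
      exact hq
    have h2 : (q' : Q) ∈ K := by
      rw [← Subgroup.mem_subgroupOf, ← QuotientGroup.eq_one_iff]
      exact hq'
    exact hcomm _ h1 _ h2 b hb b' hb'
  rcases t_SEL Q B G hQ hG hB with h | h | h
  · obtain ⟨d, hd, hds, hd0, htop⟩ := h
    obtain ⟨H, instH, ι, hher, hnt, -, G', hG'⟩ :=
      rg Q B G ⊤ Q (⊤ : Subgroup Q).subtype d hds hd0 (fun q hq => absurd (Subgroup.mem_top q) hq) (by
        apply Submodule.le_topologicalClosure
        have := le_iSup (fun k : ((⊤ : Subgroup Q).subtype).ker =>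
          G.fib ((k : (⊤ : Subgroup Q)) : Q)) 1
        exact this hd)
    have hfib : ∀ (t : Q) (h : H), h ∈ G'.fib t → ι h ∈ closure {x | ∃ y ∈ G.fib t, x = d * y * d} := by
      intro t h hh
      rw [hG'] at hh
      refine closure_mono ?_ hh
      intro x hx
      have hx' : x ∈ Submodule.span ℂ {x | ∃ q : (⊤ : Subgroup Q), (⊤ : Subgroup Q).subtype q = t ∧
        ∃ b ∈ G.fib (q : Q), x = d * b * d} := hx
      clear hx
      induction hx' using Submodule.span_induction with
      | mem x hx =>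
        obtain ⟨q, hq, b, hb, rfl⟩ := hx
        have hq' : (q : Q) = t := hq
        exact ⟨b, hq' ▸ hb, rfl⟩
      | zero => exact ⟨0, Submodule.zero_mem _, by simp⟩
      | add x y _ _ h1 h2 =>
        obtain ⟨b, hb, rfl⟩ := h1
        obtain ⟨b', hb', rfl⟩ := h2
        exact ⟨b + b', Submodule.add_mem _ hb hb', by rw [mul_add, add_mul]⟩
      | smul c x _ h1 =>
        obtain ⟨b, hb, rfl⟩ := h1
        exact ⟨c • b, Submodule.smul_mem _ c hb, by rw [mul_smul_comm, smul_mul_assoc]⟩
    refine ⟨H, instH, ι, hher, hnt, Or.inl ⟨G', ?_, ?_⟩⟩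
    · intro x hx y hy
      have hsub : closure {x | ∃ y ∈ G.fib 1, x = d * y * d} ⊆ (G.fib 1 : Set B) := by
        refine closure_minimal ?_ (G.closed 1)
        rintro _ ⟨y, hy, rfl⟩
        have h1 := G.mul_mem 1 1 d y hd hy
        have h2 := G.mul_mem (1 * 1) 1 (d * y) d h1 hd
        simpa using h2
      apply hher.1
      rw [map_mul, map_mul]
      exact hG _ (hsub (hfib 1 x hx)) _ (hsub (hfib 1 y hy))
    · intro s b hb hs
      have h1 := htop s (fun q => ι (b q)) (fun q hq => hfib q _ (hb q hq)) hs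
      rw [← map_sum, NonUnitalStarAlgHom.norm_map ι hher.1, NonUnitalStarAlgHom.norm_map ι hher.1] at h1
      exact h1
  · exact hReg (t_FP Q B G hG h)
  · exact hReg (t_AP Q B G hG h)

/-- An abelian element of a hereditary subalgebra gives an abelian element of the algebra. -/
theorem hasAb_of_hered {H B : Type} [NonUnitalCStarAlgebra H] [NonUnitalCStarAlgebra B]
    (ι : H →⋆ₙₐ[ℂ] B) (hι : Hered ι) (h : HasAb H) : HasAb B := by
  obtain ⟨e, he, he0, hab⟩ := h
  refine ⟨ι (e * e), ?_, ?_, ?_⟩
  · rw [IsSelfAdjoint, ← map_star, star_mul, he.star_eq]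
  · intro h0
    have h1 : e * e = 0 := hι.1 (by rw [h0, map_zero])
    have h2 : star e * e = 0 := by rw [he.star_eq, h1]
    exact he0 (CStarRing.star_mul_self_eq_zero_iff _ |>.1 h2)
  · intro x y
    obtain ⟨u, hu⟩ := hι.2 e e x
    obtain ⟨v, hv⟩ := hι.2 e e y
    have h1 : ∀ (x : B) (u : H), ι u = ι e * x * ι e →
        ι (e * e) * x * ι (e * e) = ι (e * u * e) := by
      intro x u hu
      rw [map_mul, map_mul, map_mul, hu]
      noncomm_ring
    rw [h1 x u hu, h1 y v hv, ← map_mul, ← map_mul, hab]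

/-- Finite groups are virtually polycyclic. -/
theorem vpc_of_finite (Q : Type) [Group Q] [Finite Q] : VPC Q := by
  refine ⟨fun H => ?_, ⊥, inferInstance, inferInstance⟩
  exact (Group.fg_iff_subgroup_fg H).1 inferInstance

/-- FIN: weakly graded by a finite group with commutative unit fibre. -/
theorem fin (hfint : S_FINT) : S_FIN := by
  have key : ∀ (n : ℕ) (Q : Type) [Group Q] [Finite Q], Nat.card Q = n →
      ∀ (B : Type) [NonUnitalCStarAlgebra B] (G : Fib Q B), G.Comm → Nontrivial B → HasAb B := by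
    intro n
    induction n using Nat.strong_induction_on with
    | _ n ih =>
      intro Q _ _ hn B _ G hG hB
      obtain ⟨H, instH, ι, hher, hnt, h⟩ := red Q (vpc_of_finite Q) B G hG hB
      apply hasAb_of_hered ι hher
      rcases h with ⟨G', hc, ht⟩ | ⟨M, K, hKn, hK, G', hc⟩
      · obtain ⟨m, hm⟩ := hfint Q H G' hc ht
        exact t_AE H m hnt hm
      · haveI : Finite (M ⧸ K) := inferInstance
        have h1 : Nat.card (M ⧸ K) < n := by
          have h2 : Nat.card M = Nat.card (M ⧸ K) * Nat.card K := K.card_eq_card_quotient_mul_card_subgroup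
          have h3 : 1 < Nat.card K := by
            rw [Subgroup.one_lt_card_iff_ne_bot]
            exact hK
          have h4 : 0 < Nat.card (M ⧸ K) := Nat.card_pos
          have h5 : Nat.card M ≤ Nat.card Q := Nat.card_le_card_of_injective _ M.subtype_injective
          nlinarith
        exact ih _ h1 (M ⧸ K) rfl H G' hc hnt
  intro Q _ _ B _ G hG hB
  exact key _ Q rfl B G hG hB

/-- FINI: algebras weakly graded by a finite group with commutative unit fibre are type I. -/
theorem fini (hfin : S_FIN) : S_FINI := by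
  intro Q _ _ B _ G hG A' _ π hπ hA'
  refine hfin Q A' (Helper43.Uct.mapFib π hπ G) ?_ hA'
  intro x hx y hy
  have h1 : ((Helper43.Uct.mapFib π hπ G).fib 1 : Set A') =
      closure (Submodule.span ℂ (π '' (G.fib 1 : Set B)) : Set A') := by
    show closure (((G.fib 1).map (Helper43.Uct.lin π) : Submodule ℂ A') : Set A') = _
    have h2 : (π '' (G.fib 1 : Set B)) =
        (((G.fib 1).map (Helper43.Uct.lin π) : Submodule ℂ A') : Set A') := by
      rw [Submodule.map_coe]
      rfl
    rw [h2, Submodule.span_eq]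
  have hx' : x ∈ closure (Submodule.span ℂ (π '' (G.fib 1 : Set B)) : Set A') := by
    rw [← h1]; exact hx
  have hy' : y ∈ closure (Submodule.span ℂ (π '' (G.fib 1 : Set B)) : Set A') := by
    rw [← h1]; exact hy
  refine span_comm ?_ _ hx' _ hy'
  rintro _ ⟨a, ha, rfl⟩ _ ⟨b, hb, rfl⟩
  rw [← map_mul, ← map_mul, hG a ha b hb]

end Pool.Agent.Helper90.Uct2
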